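import Mathlib
import Pool.Agent.Hhelper57.HR2Large

/-!
# MP_3b8a02_ag, Q2: a 4-large symplectic representation whose reduction is not ℚ-factorial
-/

namespace Pool.Agent.Results.MP_3b8a02_ag.FourLargeNotQFactorial

open HamRed HR2

/-- There are a reductive group `G ≤ GL(U)`, `dim U = 12`, and a `G`-invariant symplectic form on `U`
such that `U` is a 4-large representation of `G` and for every character `χ ∈ 𝔛` the reduction
`μ⁻¹(χ)//G` is not `ℚ`-factorial. (`G = SL₂(ℂ)`, `U = ℂ² ⊗ ℂ⁶`.) -/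
theorem result : ∃ (G : Subgroup (GL (Fin 6 ⊕ Fin 6) ℂ)) (J : Matrix (Fin 6 ⊕ Fin 6) (Fin 6 ⊕ Fin 6) ℂ),
    IsZariskiClosed G ∧ IsReductive G ∧ IsSymplecticForm J ∧ PreservesForm G J ∧ IsLarge 4 G ∧
    ∀ χ ∈ charSpace G, ¬ QFactorialReduction G J χ ∧ ¬ QFactorialReductionRed G J χ :=
  ⟨G6, J6, G6_closed, G6_reductive, J6_symplectic, G6_preserves, G6_large,
    fun _ hχ => not_qfactorial_reduction hχ⟩

end Pool.Agent.Results.MP_3b8a02_ag.FourLargeNotQFactorial
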