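import Mathlib
import Pool.Agent.HamRed.J3

/-!
# MP_3b8a02_ag, Q1: generic Hamiltonian reductions of 2-large representations are ℚ-factorial
-/

namespace Pool.Agent.Results.MP_3b8a02_ag.GenericQFactorial

open HamRed

/-- Let `G` be a reductive group with a representation `V = ℂⁿ` (`G` is given as a Zariski closed
subgroup of `GL(V ⊕ ℂᵐ)` preserving `V`). If `V` satisfies condition (iii) of 2-largeness, in
particular if `V` is 2-large, then for generic characters `χ` (all those outside finitely many
hyperplanes of `𝔛`) the reduction `μ⁻¹(χ)//G` is `ℚ`-factorial. -/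
theorem result (n m : ℕ) (G : Subgroup (GL (Fin n ⊕ Fin m) ℂ)) (hG : IsZariskiClosed G)
    (hred : IsLinearlyReductive G) (hV : PreservesFirst G) (hL : LargeCondition 2 G) :
    HoldsGenerically G (fun χ => IsQFactorial (invRing G χ)) :=
  main n m G hG hred hV hL

end Pool.Agent.Results.MP_3b8a02_ag.GenericQFactorial
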